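import Pool.Agent.Helper31.BC.Stmts

set_option autoImplicit false

/-! Module FRM: bookkeeping for the clique-colouring formula. -/

namespace Pool.Agent.Helper31.BC

open Pool.Agent.Helper38.MR (Edge Graph clq mpt Gate Simple out trv)
open Pool.Agent.Helper52.Grid

theorem frm_fstA (k q l : ℕ) (In In' : ℕ → Bool) (sel sel' : ℕ → ℕ) :
    (pcA k q l In sel).map Prod.fst = (pcA k q l In' sel').map Prod.fst := by
  simp only [pcA, List.map_append, List.map_map, List.map_flatMap, apply_ite (List.map Prod.fst),
    List.map_cons, List.map_nil, Function.comp_def]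

theorem frm_fstB (m l : ℕ) (c c' : ℕ → ℕ) :
    (pcB m l c).map Prod.fst = (pcB m l c').map Prod.fst := by
  simp only [pcB, List.map_append, List.map_map, List.map_flatMap, apply_ite (List.map Prod.fst),
    List.map_cons, List.map_nil, Function.comp_def]

theorem frm_memA {k q l : ℕ} {In : ℕ → Bool} {sel : ℕ → ℕ} {x : List (ℕ × Bool) × ℕ}
    (hx : x ∈ pcA k q l In sel) :
    (∃ i, i < k ∧ x = ((List.range q).map fun j => (j + q * i, true), sel i)) ∨
    ∃ u v, u < k * q ∧ v < k * q ∧ u < v ∧
      x = ([(u, false), (v, false), (vb (k * q) l u v, false)],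
        if In u = false then 0 else if In v = false then 1 else 2) := by
  rw [pcA, List.mem_append] at hx
  rcases hx with hx | hx
  · obtain ⟨i, hi, rfl⟩ := List.mem_map.mp hx
    exact Or.inl ⟨i, List.mem_range.mp hi, rfl⟩
  · obtain ⟨u, hu, hx⟩ := List.mem_flatMap.mp hx
    obtain ⟨v, hv, hx⟩ := List.mem_flatMap.mp hx
    by_cases huv : u < v
    · rw [if_pos huv, List.mem_singleton] at hx
      exact Or.inr ⟨u, v, List.mem_range.mp hu, List.mem_range.mp hv, huv, hx⟩
    · rw [if_neg huv] at hx
      simp at hx

theorem frm_memB {m l : ℕ} {c : ℕ → ℕ} {x : List (ℕ × Bool) × ℕ} (hx : x ∈ pcB m l c) :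
    (∃ v, v < m ∧ x = ((List.range l).map fun c => (vr m l v c, true), c v)) ∨
    ∃ u v d, u < m ∧ v < m ∧ d < l ∧ u < v ∧
      x = ([(vr m l u d, false), (vr m l v d, false), (vb m l u v, true)],
        if c u ≠ d then 0 else if c v ≠ d then 1 else 2) := by
  rw [pcB, List.mem_append] at hx
  rcases hx with hx | hx
  · obtain ⟨i, hi, rfl⟩ := List.mem_map.mp hx
    exact Or.inl ⟨i, List.mem_range.mp hi, rfl⟩
  · obtain ⟨u, hu, hx⟩ := List.mem_flatMap.mp hx
    obtain ⟨v, hv, hx⟩ := List.mem_flatMap.mp hx
    obtain ⟨d, hd, hx⟩ := List.mem_flatMap.mp hx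
    by_cases huv : u < v
    · rw [if_pos huv, List.mem_singleton] at hx
      exact Or.inr ⟨u, v, d, List.mem_range.mp hu, List.mem_range.mp hv, List.mem_range.mp hd,
        huv, hx⟩
    · rw [if_neg huv] at hx
      simp at hx

theorem frm_vb {m l u v : ℕ} (hu : u < m) (hv : v < m) : vb m l u v < m + m * l + m * m := by
  unfold vb
  have : (u + 1) * m ≤ m * m := Nat.mul_le_mul_right m hu
  have h2 : (u + 1) * m = u * m + m := by ring
  omega

theorem frm_vr {m l v c : ℕ} (hv : v < m) (hc : c < l) : vr m l v c < m + m * l := by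
  unfold vr
  have : (v + 1) * l ≤ m * l := Nat.mul_le_mul_right l hv
  have h2 : (v + 1) * l = v * l + l := by ring
  omega

theorem frm_len (pc : PCl) :
    (chs pc).length = ((pc.map Prod.fst).map fun c => 1 + 2 * c.length).sum := by
  induction pc with
  | nil => rfl
  | cons x pc ih =>
    have h1 : chs (x :: pc) = (false :: x.1.zipIdx.flatMap fun y =>
        [decide (y.2 = x.2) && y.1.2, decide (y.2 = x.2) && !y.1.2]) ++ chs pc := by
      simp [chs]
    have h2 : ∀ (L : List ((ℕ × Bool) × ℕ)) (n : ℕ), (L.flatMap fun y =>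
        [decide (y.2 = n) && y.1.2, decide (y.2 = n) && !y.1.2]).length = 2 * L.length := by
      intro L n
      induction L with
      | nil => rfl
      | cons a L ih =>
        rw [List.flatMap_cons, List.length_append, ih]
        simp
        ring
    rw [h1, List.length_append, ih, List.length_cons, h2, List.length_zipIdx]
    simp
    ring

theorem frm_chs_append (A B : PCl) : chs (A ++ B) = chs A ++ chs B := by
  simp [chs]

theorem st_FRM : ST_FRM := by
  intro k q l σ χ
  have hA : ∀ σ' : Fin k → Fin q, (pcA k q l (inn σ') (sel σ')).map Prod.fst =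
      (pcA k q l (fun _ => false) (fun _ => 0)).map Prod.fst := fun σ' => frm_fstA _ _ _ _ _ _ _
  have hB : ∀ χ' : Fin (k * q) → Fin l, (pcB (k * q) l (col χ')).map Prod.fst =
      (pcB (k * q) l (fun _ => 0)).map Prod.fst := fun χ' => frm_fstB _ _ _ _
  have hlen : ∀ σ' σ'' : Fin k → Fin q, (chs (pcA k q l (inn σ') (sel σ'))).length =
      (chs (pcA k q l (inn σ'') (sel σ''))).length := by
    intro σ' σ''
    rw [frm_len, frm_len, hA, hA]
  refine ⟨?_, ?_, ?_, ?_, ?_⟩
  · rw [pcc, List.map_append, hA, hB, ccF]
  · intro x hx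
    rw [pcc, List.mem_append] at hx
    rcases hx with hx | hx
    · rcases frm_memA hx with ⟨i, hi, rfl⟩ | ⟨u, v, -, -, -, rfl⟩
      · simp only [List.length_map, List.length_range]
        rw [sel, dif_pos hi]
        exact (σ ⟨i, hi⟩).2
      · simp only [List.length_cons, List.length_nil]
        split_ifs <;> omega
    · rcases frm_memB hx with ⟨v, hv, rfl⟩ | ⟨u, v, d, -, -, -, -, rfl⟩
      · simp only [List.length_map, List.length_range]
        rw [col, dif_pos hv]
        exact (χ ⟨v, hv⟩).2
      · simp only [List.length_cons, List.length_nil]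
        split_ifs <;> omega
  · intro c hc y hy
    rw [ccF, List.mem_append] at hc
    have hM : ccM k q l = k * q + k * q * l + (k * q) * (k * q) := rfl
    rcases hc with hc | hc
    · obtain ⟨x, hx, rfl⟩ := List.mem_map.mp hc
      rcases frm_memA hx with ⟨i, hi, rfl⟩ | ⟨u, v, hu, hv, -, rfl⟩
      · obtain ⟨j, hj, rfl⟩ := List.mem_map.mp hy
        have hj := List.mem_range.mp hj
        have h1 : (i + 1) * q ≤ k * q := Nat.mul_le_mul_right q hi
        have h2 : (i + 1) * q = q * i + q := by ring
        simp only
        omega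
      · have h1 := frm_vb (l := l) hu hv
        simp only [List.mem_cons, List.not_mem_nil, or_false] at hy
        rcases hy with rfl | rfl | rfl
        · simp only; omega
        · simp only; omega
        · simp only; omega
    · obtain ⟨x, hx, rfl⟩ := List.mem_map.mp hc
      rcases frm_memB hx with ⟨v, hv, rfl⟩ | ⟨u, v, d, hu, hv, hd, -, rfl⟩
      · obtain ⟨j, hj, rfl⟩ := List.mem_map.mp hy
        have hj := List.mem_range.mp hj
        have h1 := frm_vr hv hj
        simp only
        omega
      · have h1 := frm_vb (l := l) hu hv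
        have h2 := frm_vr hu hd
        have h3 := frm_vr hv hd
        simp only [List.mem_cons, List.not_mem_nil, or_false] at hy
        rcases hy with rfl | rfl | rfl
        · simp only; omega
        · simp only; omega
        · simp only; omega
  · intro i
    by_cases hi : i < k * q
    · right
      intro σ' χ'
      simp only [asg, if_pos hi, and_self]
    · left
      intro σ' χ'
      simp only [asg, if_neg hi, and_self]
  · intro j
    by_cases hj : j < (chs (pcA k q l (inn σ) (sel σ))).length
    · right
      intro σ' χ'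
      have hj' : j < (chs (pcA k q l (inn σ') (sel σ'))).length := hlen σ σ' ▸ hj
      simp only [chf, pcc, frm_chs_append, List.getD_append _ _ _ _ hj, List.getD_append _ _ _ _ hj',
        and_self]
    · left
      intro σ' χ'
      have hj1 : (chs (pcA k q l (inn σ) (sel σ))).length ≤ j := not_lt.mp hj
      have hj' : (chs (pcA k q l (inn σ') (sel σ'))).length ≤ j := hlen σ σ' ▸ hj1
      simp only [chf, pcc, frm_chs_append, List.getD_append_right _ _ _ _ hj1,
        List.getD_append_right _ _ _ _ hj', hlen σ' σ, and_self]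

end Pool.Agent.Helper31.BC
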